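import Pool.Agent.V11227.PK2

/-!
# A PCG whose complement is not a 2-AND-PCG

The graph consists of three disjoint copies of `K_{4,4}` (24 vertices); more generally, for every
`k ≥ 1` the disjoint union of `k + 1` copies of `K_{2k,2k}` is a pairwise compatibility graph whose
complement is not a `k`-AND-PCG.

If two edges in different copies were both farther apart than the interval in the same tree, then
the four-point condition would be violated.  So in some copy all edges are, in some tree, nearer
than the interval.  The near pairs of a tree inside a copy form a forest, and `k` forests on `4k`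
vertices have at most `k (4k - 1) < (2k)^2` edges.
-/

set_option autoImplicit false

namespace Pool.Agent.Results.MP_488b30_co.ComplementNotAnd

open Pool.Agent.V11227.PK

/-- For every `k ≥ 1` there is a pairwise compatibility graph whose complement is not a
`k`-AND-PCG; for `k = 2` three disjoint copies of `K_{4,4}` are such a graph. -/
theorem result :
    (IsPCG (copies 2 4) ∧ ¬ IsAndPCG 2 (copies 2 4)ᶜ) ∧
    ∀ k : ℕ, 1 ≤ k → ∃ (V : Type) (_ : Finite V) (G : SimpleGraph V), IsPCG G ∧ ¬ IsAndPCG k Gᶜ :=
  ⟨⟨isPCG_copies (by norm_num) (by norm_num), not_isAndPCG_compl (by norm_num)⟩,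
    fun k hk => ⟨_, inferInstance, copies k (2 * k), isPCG_copies hk (by omega),
      not_isAndPCG_compl (by
        obtain ⟨m, rfl⟩ : ∃ m, k = m + 1 := ⟨k - 1, by omega⟩
        have : 2 * (2 * (m + 1)) - 1 = 4 * m + 3 := by omega
        rw [this]
        nlinarith)⟩⟩

end Pool.Agent.Results.MP_488b30_co.ComplementNotAnd
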